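import Mathlib
import Pool.Agent.X318.DigHank

/-!
# MP_9fc12a_nt, Q1: the roots of all `ℋ(n,t)`, `n ≥ 2`, lie in the disc `|t| < 4`.
-/

set_option autoImplicit false

namespace Pool.Agent.Results.MP_9fc12a_nt.HankelRoots

open X318.PencilDet X318.DigHank Polynomial

/-- `S(n,t) = ∑ ε_j t^j` for the binary expansion `n = ∑ ε_j 2^j`. -/
noncomputable def S (n : ℕ) : ℤ[X] := Nat.ofDigits (X : ℤ[X]) (Nat.digits 2 n)

/-- `ℋ(n,t) = det [S(i+j,t)]_{0 ≤ i,j < n}` -/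
noncomputable def Hp (n : ℕ) : ℤ[X] := (Matrix.of fun i j : Fin n => S ((i : ℕ) + (j : ℕ))).det

lemma S_even (m : ℕ) : S (2 * m) = X * S m := by
  unfold S
  rcases Nat.eq_zero_or_pos m with h | h
  · subst h; simp [Nat.ofDigits]
  · rw [Nat.digits_def' (by norm_num) (by omega)]
    simp [Nat.mul_mod_right, Nat.ofDigits]

lemma S_odd (m : ℕ) : S (2 * m + 1) = 1 + X * S m := by
  unfold S
  rw [Nat.digits_def' (by norm_num) (by omega)]
  have h1 : (2 * m + 1) % 2 = 1 := by omega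
  have h2 : (2 * m + 1) / 2 = m := by omega
  rw [h1, h2]
  simp [Nat.ofDigits]

noncomputable def sv (t : ℂ) (n : ℕ) : ℂ := aeval t (S n)

lemma digSeq (t : ℂ) : DigSeq t (sv t) :=
  ⟨fun m => by unfold sv; rw [S_even]; simp, fun m => by unfold sv; rw [S_odd]; simp⟩

lemma aeval_Hp (t : ℂ) (n : ℕ) : aeval t (Hp n) = H (sv t) n := by
  unfold Hp H dN
  have := RingHom.map_det (aeval t : ℤ[X] →ₐ[ℤ] ℂ).toRingHom (Matrix.of fun i j : Fin n => S ((i : ℕ) + (j : ℕ)))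
  simp only [AlgHom.toRingHom_eq_coe, RingHom.coe_coe] at this
  rw [this]
  congr 1

section
variable {t : ℂ} {s : ℕ → ℂ}

lemma G_zero : G s 0 = 1 := by simp [G, dN]

lemma H'_one : H' s 1 = 1 := by
  unfold H'
  rw [bN_eq]
  simp [dN]

/-- `δ(m) = t^m β - 2 t^(m-1) β'` -/
lemma delta_bound (_ht : 4 ≤ ‖t‖) (m : ℕ) (hm : 1 ≤ m) (hb : ‖B' s m‖ ≤ ‖B s m‖) :
    (‖t‖ - 2) * ‖t ^ (m - 1) * B s m‖ ≤ ‖t ^ m * B s m - 2 * (t ^ (m - 1) * B' s m)‖ := by
  obtain ⟨k, rfl⟩ : ∃ k, m = k + 1 := ⟨m - 1, by omega⟩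
  rw [Nat.add_sub_cancel]
  have h1 : t ^ (k + 1) * B s (k + 1) - 2 * (t ^ k * B' s (k + 1)) =
      t ^ k * (t * B s (k + 1) - 2 * B' s (k + 1)) := by ring
  rw [h1, norm_mul, norm_mul]
  have h2 : (‖t‖ - 2) * ‖B s (k + 1)‖ ≤ ‖t * B s (k + 1) - 2 * B' s (k + 1)‖ := by
    have h3 := norm_sub_norm_le (t * B s (k + 1)) (2 * B' s (k + 1))
    rw [norm_mul, norm_mul, Complex.norm_ofNat] at h3
    nlinarith
  have h4 : 0 ≤ ‖t ^ k‖ := norm_nonneg _
  nlinarith

lemma step1 (h : DigSeq t s) (ht : 4 ≤ ‖t‖) (n : ℕ) (hn : 1 ≤ n) :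
    B s n ≠ 0 ∧ ‖B' s n‖ ≤ ‖B s n‖ ∧ G s n ≠ 0 ∧ H' s n ≠ 0 := by
  have ht0 : t ≠ 0 := by
    intro h0; rw [h0, norm_zero] at ht; linarith
  have hd : ∀ m, 1 ≤ m → B s m ≠ 0 → ‖B' s m‖ ≤ ‖B s m‖ →
      t ^ m * B s m - 2 * (t ^ (m - 1) * B' s m) ≠ 0 := by
    intro m hm h1 h2 h3
    have h4 := delta_bound ht m hm h2
    rw [h3, norm_zero] at h4
    have h5 : 0 < ‖t ^ (m - 1) * B s m‖ := norm_pos_iff.mpr (mul_ne_zero (pow_ne_zero _ ht0) h1)
    nlinarith
  induction n using Nat.strong_induction_on with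
  | _ n ih =>
    rcases Nat.lt_or_ge n 2 with h2 | h2
    · have : n = 1 := by omega
      subst this
      have hB : B s 1 = 1 := by
        have := B_odd h 0
        simpa [G_zero] using this
      have hB' : B' s 1 = 1 := by
        have := B'_odd h 0
        rw [show 2 * 0 + 1 = 1 by rfl] at this
        rw [this, hB]
      have hne := hd 1 le_rfl (by rw [hB]; exact one_ne_zero) (by rw [hB, hB'])
      refine ⟨by rw [hB]; exact one_ne_zero, by rw [hB, hB'], ?_, by rw [H'_one]; exact one_ne_zero⟩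
      have := G_rec h 1 0 (by omega) le_rfl
      rw [show 1 + 0 = 1 by rfl, G_zero] at this
      rw [this]
      simpa using hne
    · rcases Nat.even_or_odd' n with ⟨m, rfl | rfl⟩
      · obtain ⟨a1, a2, a3, a4⟩ := ih m (by omega) (by omega)
        have hne := hd m (by omega) a1 a2
        have hs : ((-1 : ℂ)) ^ m ≠ 0 := pow_ne_zero _ (by norm_num)
        refine ⟨?_, ?_, ?_, ?_⟩
        · rw [B_even h]
          exact mul_ne_zero (mul_ne_zero (pow_ne_zero _ ht0) a1) (mul_ne_zero hs hne)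
        · rw [B_even h, B'_even h, norm_mul, norm_mul (t ^ m * B s m)]
          apply mul_le_mul_of_nonneg_right _ (norm_nonneg _)
          obtain ⟨k, rfl⟩ : ∃ k, m = k + 1 := ⟨m - 1, by omega⟩
          rw [Nat.add_sub_cancel, norm_mul, norm_mul, norm_mul, Complex.norm_ofNat, pow_succ, norm_mul]
          have h4 : 0 ≤ ‖t ^ k‖ := norm_nonneg _
          have h5 : 0 ≤ ‖B' s (k + 1)‖ := norm_nonneg _
          have h6 : 2 * ‖B' s (k + 1)‖ ≤ ‖t‖ * ‖B s (k + 1)‖ := by nlinarith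
          nlinarith
        · have := G_rec h m m le_rfl (by omega)
          rw [← two_mul] at this
          rw [this]
          exact mul_ne_zero hne (mul_ne_zero (pow_ne_zero _ ht0) a3)
        · have := H'_rec h m m le_rfl (by omega)
          rw [← two_mul] at this
          rw [this]
          exact mul_ne_zero (mul_ne_zero (pow_ne_zero _ ht0) a4) hne
      · obtain ⟨a1, a2, a3, a4⟩ := ih m (by omega) (by omega)
        obtain ⟨b1, b2, b3, b4⟩ := ih (m + 1) (by omega) (by omega)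
        have hne := hd m (by omega) a1 a2
        have hne' := hd (m + 1) (by omega) b1 b2
        have hs : ((-1 : ℂ)) ^ m ≠ 0 := pow_ne_zero _ (by norm_num)
        refine ⟨?_, ?_, ?_, ?_⟩
        · rw [B_odd h]
          exact mul_ne_zero hs (pow_ne_zero _ (mul_ne_zero (pow_ne_zero _ ht0) a3))
        · rw [B'_odd h]
        · have := G_rec h (m + 1) m (by omega) le_rfl
          rw [show m + 1 + m = 2 * m + 1 by ring] at this
          rw [this]
          exact mul_ne_zero hne' (mul_ne_zero (pow_ne_zero _ ht0) a3)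
        · have := H'_rec h (m + 1) m (by omega) le_rfl
          rw [show m + 1 + m = 2 * m + 1 by ring] at this
          rw [this]
          exact mul_ne_zero (mul_ne_zero (pow_ne_zero _ ht0) b4) hne

lemma step2_aux (h : DigSeq t s) (ht : 4 ≤ ‖t‖) (R S' : ℕ) (h2 : S' ≤ R) (h3 : R ≤ S' + 1) (hS : 1 ≤ S')
    (hR : ‖H' s R‖ ≤ (‖t‖ + 2) * ‖H s R‖) :
    ‖H' s (R + S')‖ ≤ (‖t‖ + 2) * ‖H s (R + S')‖ := by
  obtain ⟨a1, a2, a3, a4⟩ := step1 h ht S' hS
  have hd := delta_bound (s := s) ht S' hS a2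
  rw [H_rec h R S' h2 h3, H'_rec h R S' h2 h3]
  set δ := t ^ S' * B s S' - 2 * (t ^ (S' - 1) * B' s S') with hδ
  obtain ⟨k, rfl⟩ : ∃ k, R = k + 1 := ⟨R - 1, by omega⟩
  rw [Nat.add_sub_cancel]
  set x := ‖t‖ with hx
  set b' := ‖t ^ (S' - 1) * B' s S'‖ with hb'
  have e1 : t ^ (k + 1) * H s (k + 1) * δ - t ^ k * H' s (k + 1) * (t ^ (S' - 1) * B' s S') =
      t ^ k * (t * H s (k + 1) * δ - H' s (k + 1) * (t ^ (S' - 1) * B' s S')) := by ring
  rw [e1, norm_mul (t ^ k)]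
  have e2 : ‖t ^ k * H' s (k + 1) * δ‖ = ‖t ^ k‖ * (‖H' s (k + 1)‖ * ‖δ‖) := by
    rw [norm_mul, norm_mul, mul_assoc]
  rw [e2]
  have e3 : x * ‖H s (k + 1)‖ * ‖δ‖ - ‖H' s (k + 1)‖ * b' ≤
      ‖t * H s (k + 1) * δ - H' s (k + 1) * (t ^ (S' - 1) * B' s S')‖ := by
    have := norm_sub_norm_le (t * H s (k + 1) * δ) (H' s (k + 1) * (t ^ (S' - 1) * B' s S'))
    rw [norm_mul, norm_mul, norm_mul (H' s (k + 1))] at this
    exact this
  have hb2 : b' ≤ ‖t ^ (S' - 1) * B s S'‖ := by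
    rw [hb', norm_mul, norm_mul]
    exact mul_le_mul_of_nonneg_left a2 (norm_nonneg _)
  have hb0 : 0 ≤ b' := norm_nonneg _
  have hδb : (x - 2) * b' ≤ ‖δ‖ := by nlinarith
  have hp : 0 ≤ ‖t ^ k‖ := norm_nonneg _
  have hh' : 0 ≤ ‖H' s (k + 1)‖ := norm_nonneg _
  have hδ0 : 0 ≤ ‖δ‖ := norm_nonneg _
  have k1 : (x + 2) * b' ≤ (x - 1) * ‖δ‖ := by
    have : (x + 2) * b' ≤ (x - 1) * ((x - 2) * b') := by
      have : 0 ≤ x * (x - 4) * b' := mul_nonneg (mul_nonneg (by linarith) (by linarith)) hb0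
      nlinarith
    nlinarith
  have k2 : ‖H' s (k + 1)‖ * ‖δ‖ ≤ (x + 2) * (x * ‖H s (k + 1)‖ * ‖δ‖ - ‖H' s (k + 1)‖ * b') := by
    have m1 : x * (‖H' s (k + 1)‖ * ‖δ‖) ≤ x * ((x + 2) * ‖H s (k + 1)‖ * ‖δ‖) := by
      apply mul_le_mul_of_nonneg_left _ (by linarith)
      exact mul_le_mul_of_nonneg_right hR hδ0
    have m2 : ‖H' s (k + 1)‖ * ((x + 2) * b') ≤ ‖H' s (k + 1)‖ * ((x - 1) * ‖δ‖) :=
      mul_le_mul_of_nonneg_left k1 hh'
    nlinarith
  calc ‖t ^ k‖ * (‖H' s (k + 1)‖ * ‖δ‖) ≤ ‖t ^ k‖ * ((x + 2) * (x * ‖H s (k + 1)‖ * ‖δ‖ - ‖H' s (k + 1)‖ * b')) :=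
        mul_le_mul_of_nonneg_left k2 hp
    _ ≤ ‖t ^ k‖ * ((x + 2) * ‖t * H s (k + 1) * δ - H' s (k + 1) * (t ^ (S' - 1) * B' s S')‖) := by
        apply mul_le_mul_of_nonneg_left _ hp
        exact mul_le_mul_of_nonneg_left e3 (by linarith)
    _ = _ := by ring

lemma step2 (h : DigSeq t s) (ht : 4 ≤ ‖t‖) (n : ℕ) (hn : 2 ≤ n) :
    ‖H' s n‖ ≤ (‖t‖ + 2) * ‖H s n‖ := by
  induction n using Nat.strong_induction_on with
  | _ n ih =>
    rcases Nat.lt_or_ge n 3 with h3 | h3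
    · have : n = 2 := by omega
      subst this
      have hs0 : s 0 = 0 := by
        have h1 := h.even 0
        rw [mul_zero] at h1
        have h2 : (1 - t) * s 0 = 0 := by linear_combination h1
        rcases mul_eq_zero.mp h2 with h4 | h4
        · exfalso
          have : t = 1 := by linear_combination -h4
          rw [this, norm_one] at ht; linarith
        · exact h4
      have hH1 : H s 1 = 0 := by simp [H, dN, hs0]
      have hB : B s 1 = 1 := by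
        have := B_odd h 0
        simpa [G_zero] using this
      have hB' : B' s 1 = 1 := by
        have := B'_odd h 0
        rw [show 2 * 0 + 1 = 1 by rfl] at this
        rw [this, hB]
      have e1 := H_rec h 1 1 le_rfl (by omega)
      have e2 := H'_rec h 1 1 le_rfl (by omega)
      rw [hH1, hB, hB', H'_one] at e1
      rw [hB, hB', H'_one] at e2
      rw [show 1 + 1 = 2 by rfl] at e1 e2
      rw [e1, e2]
      norm_num
      have := norm_sub_le t 2
      rw [Complex.norm_ofNat] at this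
      exact this
    · rcases Nat.even_or_odd' n with ⟨m, rfl | rfl⟩
      · have := step2_aux h ht m m le_rfl (by omega) (by omega) (ih m (by omega) (by omega))
        rwa [← two_mul] at this
      · have := step2_aux h ht (m + 1) m (by omega) le_rfl (by omega) (ih (m + 1) (by omega) (by omega))
        rwa [show m + 1 + m = 2 * m + 1 by ring] at this

lemma H_ne (h : DigSeq t s) (ht : 4 ≤ ‖t‖) (n : ℕ) (hn : 2 ≤ n) : H s n ≠ 0 := by
  intro h0
  have h1 := step2 h ht n hn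
  rw [h0, norm_zero, mul_zero] at h1
  exact (step1 h ht n (by omega)).2.2.2 (norm_le_zero_iff.mp h1)

end

/-- Q1: a uniform bound exists; in fact every complex root `t₀` of every `ℋ(n,t)`, `n ≥ 2`,
satisfies `|t₀| < 4`. -/
theorem result :
    (∃ M : ℝ, ∀ n : ℕ, 2 ≤ n → ∀ t₀ : ℂ, aeval t₀ (Hp n) = 0 → ‖t₀‖ ≤ M) ∧
    (∀ n : ℕ, 2 ≤ n → ∀ t₀ : ℂ, aeval t₀ (Hp n) = 0 → ‖t₀‖ < 4) := by
  have key : ∀ n : ℕ, 2 ≤ n → ∀ t₀ : ℂ, aeval t₀ (Hp n) = 0 → ‖t₀‖ < 4 := by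
    intro n hn t₀ h0
    by_contra hc
    rw [aeval_Hp] at h0
    exact H_ne (digSeq t₀) (not_lt.mp hc) n hn h0
  exact ⟨⟨4, fun n hn t₀ h0 => (key n hn t₀ h0).le⟩, key⟩

end Pool.Agent.Results.MP_9fc12a_nt.HankelRoots
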